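import Pool.Agent.helper61.SP.SpecDX

/-! # Project sp, module DX7 -/

namespace TP

open DP MeasureTheory

theorem DX7_gen (P : ℤ → ℤ → ℤ → ℤ → ℝ) (ε δ₁ δ : ℝ) (L₁ : ℤ)
    (hmono : ∀ a b d e d' e', a ≤ b → d ≤ d' → d' ≤ e' → e' ≤ e → P a b d e ≤ P a b d' e')
    (htr : ∀ a b d e i j, (i + j) % 2 = 0 → P (a + i) (b + i) (d + j) (e + j) = P a b d e)
    (hbase : ∀ w h s : ℤ, L₁ ≤ s → (s : ℝ) ≤ δ₁ * w → (s : ℝ) ≤ δ₁ * h →
      P 0 w 0 h ≤ P 0 w (-s) h + ε)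
    (hδ₁ : 0 < δ₁) (hL : 2 ≤ L₁) (hδ0 : 0 < δ) (hδ : 2 * δ * (1 + δ₁) ≤ δ₁) :
    ∀ a b d e s : ℤ, L₁ ≤ s → (s : ℝ) ≤ δ * (b - a) → (s : ℝ) ≤ δ * (e - d) →
      P a b (d + s) e ≤ P a b d e + ε ∧ P a b d (e - s) ≤ P a b d e + ε := by
  intro a b d e s hs h1 h2
  have hs0 : (0 : ℝ) < s := by
    have : (2 : ℝ) ≤ s := by exact_mod_cast hL.trans hs
    linarith
  have hba : (0 : ℝ) < b - a := by
    by_contra hcon
    push Not at hcon
    nlinarith
  have hed : (0 : ℝ) < e - d := by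
    by_contra hcon
    push Not at hcon
    nlinarith
  have hab : a ≤ b := by
    have : (a : ℝ) ≤ b := by linarith
    exact_mod_cast this
  have hδle : 2 * δ ≤ δ₁ := by nlinarith
  have key : ∀ s' : ℤ, s ≤ s' → s' ≤ 2 * s → (s' : ℝ) ≤ δ₁ * (b - a) ∧
      (s' : ℝ) ≤ δ₁ * (e - d - s') ∧ d + s' ≤ e := by
    intro s' h3 h4
    have h5 : (s' : ℝ) ≤ 2 * s := by exact_mod_cast h4
    have h6 : (s' : ℝ) ≤ 2 * δ * (e - d) := by nlinarith
    have h7 : (s' : ℝ) * (1 + δ₁) ≤ δ₁ * (e - d) := by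
      calc (s' : ℝ) * (1 + δ₁) ≤ 2 * δ * (e - d) * (1 + δ₁) :=
            mul_le_mul_of_nonneg_right h6 (by linarith)
        _ = (2 * δ * (1 + δ₁)) * (e - d) := by ring
        _ ≤ δ₁ * (e - d) := mul_le_mul_of_nonneg_right hδ hed.le
    have h8 : (s' : ℝ) ≤ δ₁ * (e - d - s') := by nlinarith
    refine ⟨?_, h8, ?_⟩
    · nlinarith
    · have h9 : (s : ℝ) ≤ s' := by exact_mod_cast h3
      have h10 : (0 : ℝ) < e - d - s' := by
        by_contra hcon
        push Not at hcon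
        nlinarith
      have : (d : ℝ) + s' ≤ e := by linarith
      exact_mod_cast this
  have stepE : ∀ s' : ℤ, s ≤ s' → s' ≤ 2 * s → (a + (d + s')) % 2 = 0 →
      P a b (d + s') e ≤ P a b d e + ε := by
    intro s' h3 h4 hpar
    obtain ⟨k1, k2, _⟩ := key s' h3 h4
    have h5 := hbase (b - a) (e - d - s') s' (hs.trans h3) (by push_cast; exact k1)
      (by push_cast; exact k2)
    have e1 := htr 0 (b - a) 0 (e - d - s') a (d + s') hpar
    have e2 := htr 0 (b - a) (-s') (e - d - s') a (d + s') hpar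
    rw [zero_add, zero_add, sub_add_cancel, show e - d - s' + (d + s') = e by ring] at e1
    rw [zero_add, sub_add_cancel, show e - d - s' + (d + s') = e by ring,
      show -s' + (d + s') = d by ring] at e2
    rw [e1, e2]
    exact h5
  have step : ∀ s' : ℤ, s ≤ s' → s' + 1 ≤ 2 * s → P a b (d + s') e ≤ P a b d e + ε := by
    intro s' h3 h4
    by_cases hpar : (a + (d + s')) % 2 = 0
    · exact stepE s' h3 (by omega) hpar
    · have h5 := stepE (s' + 1) (by omega) h4 (by omega)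
      refine le_trans ?_ h5
      exact hmono a b (d + s') e (d + (s' + 1)) e hab (by omega)
        (key (s' + 1) (by omega) h4).2.2 le_rfl
  refine ⟨step s le_rfl (by omega), ?_⟩
  -- the other side
  obtain ⟨s', h3, h4, h5⟩ : ∃ s' : ℤ, s ≤ s' ∧ s' + 1 ≤ 2 * s ∧ s' % 2 = 0 := by
    by_cases hpar : s % 2 = 0
    · exact ⟨s, le_rfl, by omega, hpar⟩
    · exact ⟨s + 1, by omega, by omega, by omega⟩
  have h6 := step s' h3 h4
  have h7 := htr a b d (e - s') 0 s' (by omega)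
  rw [add_zero, add_zero, sub_add_cancel] at h7
  rw [h7] at h6
  refine le_trans ?_ h6
  have := (key s' h3 (by omega)).2.2
  exact hmono a b d (e - s) d (e - s') hab le_rfl (by omega) (by omega)

theorem DX7 (h5 : DX5_stmt) (h6 : DX6_stmt) : DX7_stmt := by
  intro ε hε
  obtain ⟨δ₁, hδ₁, L₁, hL₁, hb₁⟩ := h5 br h6.1 ε hε
  obtain ⟨δ₂, hδ₂, L₂, hL₂, hb₂⟩ := h5 _ h6.2 ε hε
  set δ : ℝ := min (δ₁ / (2 * (1 + δ₁))) (δ₂ / (2 * (1 + δ₂))) with hδ
  have hδ0 : 0 < δ := lt_min (by positivity) (by positivity)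
  have hd1 : 2 * δ * (1 + δ₁) ≤ δ₁ := by
    have : δ ≤ δ₁ / (2 * (1 + δ₁)) := min_le_left _ _
    rw [le_div_iff₀ (by positivity)] at this
    linarith
  have hd2 : 2 * δ * (1 + δ₂) ≤ δ₂ := by
    have : δ ≤ δ₂ / (2 * (1 + δ₂)) := min_le_right _ _
    rw [le_div_iff₀ (by positivity)] at this
    linarith
  refine ⟨δ, hδ0, max L₁ L₂, le_max_of_le_left hL₁, ?_⟩
  intro a b d e s hs h1 h2
  have hsw : ∀ (ω : V → Bool) (a b d e : ℤ),
      vcross (kap (fun v => br (v.2, v.1)) ω) true a b d e ↔ hcross (col ω) true d e a b := by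
    intro ω a b d e
    have := RSX_h_sw (kap (fun v => br (v.2, v.1)) ω) true a b d e
    rw [← this]
    rfl
  have hv := DX7_gen (fun a b d e => pv true a b d e) ε δ₁ δ L₁
    (fun a b d e d' e' _ k1 k2 k3 => RSW_pv_mono le_rfl le_rfl k1 k2 k3)
    (fun a b d e i j hij => (TSX.1 true a b d e i j hij).2)
    (fun w h s k1 k2 k3 => hb₁ w h s k1 k2 k3) hδ₁ hL₁ hδ0 hd1 a b d e s
    ((le_max_left _ _).trans hs) h1 h2
  have hh := DX7_gen (fun a b d e => ph true d e a b) ε δ₂ δ L₂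
    (fun a b d e d' e' _ k1 k2 k3 => RSW_ph_mono k1 k2 k3 le_rfl le_rfl)
    (fun a b d e i j hij => (TSX.1 true d e a b j i (by omega)).1)
    (fun w h s k1 k2 k3 => by
      have := hb₂ w h s k1 k2 k3
      simp only [hsw] at this
      exact this) hδ₂ hL₂ hδ0 hd2 d e a b s
    ((le_max_right _ _).trans hs) h2 h1
  exact ⟨hh.1, hh.2, hv.1, hv.2⟩

end TP
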