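import Pool.Agent.helper3.SP.SpecPP

/-! # Project sp, module PP34: loops are free of charge -/

namespace TP

open DP MeasureTheory

theorem PP34_gate {c c' : V → Bool} {x : V} {m n : ℕ} (h : ∀ v ∈ ann x m n, c v = c' v) :
    Gate c x m n ↔ Gate c' x m n := by
  simp only [Gate, four, twoCl, Three, Conn.congr h]

theorem PP34_loc (x : V) (m n : ℕ) : Loc (Ev fun c => Gate c x m n) (ann x m n) :=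
  Loc.ev (ann_finite x m n) fun _ _ h => PP34_gate h

theorem PP34_bun {A B C : Set V} (h : BDis A C) (h' : BDis B C) : BDis (A ∪ B) C := by
  rintro v (hv | hv) w hw
  · exact h v hv w hw
  · exact h' v hv w hw

theorem PP34_six (k : Bool) (F : Fin 6 → Set (V → Bool)) (A : Fin 6 → Set V) (C : Set V)
    (hL : ∀ i, Loc (F i) (A i)) (hM : ∀ i, Mon k (F i)) (hB : ∀ i, BDis (A i) C) :
    Loc (F 0 ∩ (F 1 ∩ (F 2 ∩ (F 3 ∩ (F 4 ∩ F 5)))))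
      (A 0 ∪ (A 1 ∪ (A 2 ∪ (A 3 ∪ (A 4 ∪ A 5))))) ∧
    Mon k (F 0 ∩ (F 1 ∩ (F 2 ∩ (F 3 ∩ (F 4 ∩ F 5))))) ∧
    BDis (A 0 ∪ (A 1 ∪ (A 2 ∪ (A 3 ∪ (A 4 ∪ A 5))))) C :=
  ⟨(hL 0).inter ((hL 1).inter ((hL 2).inter ((hL 3).inter ((hL 4).inter (hL 5))))),
    (hM 0).inter ((hM 1).inter ((hM 2).inter ((hM 3).inter ((hM 4).inter (hM 5))))),
    PP34_bun (hB 0) (PP34_bun (hB 1) (PP34_bun (hB 2) (PP34_bun (hB 3) (PP34_bun (hB 4) (hB 5)))))⟩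

/-- The arms of one colour. -/
theorem PP34_arms (hGXL : GXL_stmt) (h20 : PP20_stmt) (h18 : PP18_stmt) (h19 : PP19_stmt)
    (x : V) (m₀ n₀ ℓ₁ ℓ S ℓ₃ : ℕ) (hP : ParC m₀ n₀ ℓ₁ ℓ S ℓ₃) :
    (∃ A : Set V, Loc (Ev fun c => ArB c x m₀ n₀ ℓ₁ ℓ S ℓ₃) A ∧
      Mon true (Ev fun c => ArB c x m₀ n₀ ℓ₁ ℓ S ℓ₃) ∧ BDis A (regL (Lwht x ℓ₁ ℓ S ℓ₃))) ∧
    (∃ A : Set V, Loc (Ev fun c => ArW c x m₀ n₀ ℓ₁ ℓ S ℓ₃) A ∧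
      Mon false (Ev fun c => ArW c x m₀ n₀ ℓ₁ ℓ S ℓ₃) ∧ BDis A (regL (Lblk x ℓ₁ ℓ S ℓ₃))) := by
  have e8 : ∀ a : ℕ, 32 * a / 8 = 4 * a := fun a => by omega
  have e8' : ∀ a : ℕ, 256 * a / 8 = 32 * a := fun a => by omega
  have g1 : ∀ k : Bool, Loc (Ev fun c => Mk4 c x m₀ (32 * ℓ₁) k)
      (box x (32 * ℓ₁) \ opp 4 (zpt x (32 * ℓ₁)) (4 * ℓ₁) k) ∧
      Mon k (Ev fun c => Mk4 c x m₀ (32 * ℓ₁) k) := by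
    intro k
    obtain ⟨h1, h2⟩ := hGXL 4 true x (32 * ℓ₁) (Dmark 4 x m₀) (zpt x (32 * ℓ₁)) (32 * ℓ₁ / 64)
      (32 * ℓ₁ / 8) k (Or.inl rfl)
    refine ⟨h1.mono ?_, h2⟩
    rintro v ⟨hv1, hv2⟩
    refine ⟨by simpa [HS] using hv1, fun hv3 => hv2 (Or.inr ?_)⟩
    rw [e8]
    exact hv3
  have g6 : ∀ k : Bool, Loc (Ev fun c => Mk4 c x (256 * ℓ₃) n₀ k)
      ({v | 256 * ℓ₃ ≤ sd x v} \ opp 4 (zpt x (256 * ℓ₃)) (32 * ℓ₃) k) ∧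
      Mon k (Ev fun c => Mk4 c x (256 * ℓ₃) n₀ k) := by
    intro k
    obtain ⟨h1, h2⟩ := hGXL 4 true x n₀ (Dmark 4 x (256 * ℓ₃)) (zpt x n₀) (n₀ / 64)
      (n₀ / 8) k (Or.inl rfl)
    refine ⟨h1.mono ?_, h2⟩
    rintro v ⟨hv1, hv2⟩
    refine ⟨?_, fun hv3 => hv2 (Or.inl (Or.inr ?_))⟩
    · by_contra hlt
      have hlt' : sd x v < 256 * ℓ₃ := not_le.mp hlt
      exact hv2 (Or.inl (Or.inl hlt'))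
    · show v ∈ opp 4 (zpt x (256 * ℓ₃)) (256 * ℓ₃ / 8) k
      rw [e8']
      exact hv3
  obtain ⟨h201, h202⟩ := h20
  constructor
  · obtain ⟨b1, b2, b6⟩ := h18 x m₀ n₀ ℓ₁ ℓ S ℓ₃ true hP
    obtain ⟨b3, b4, b5⟩ := h19 x m₀ n₀ ℓ₁ ℓ S ℓ₃ true hP
    have hC1 := (h201 (yc x ℓ S) (32 * ℓ₁)).1
    rw [e8] at hC1
    have := PP34_six true
      ![Ev fun c => Mk4 c x m₀ (32 * ℓ₁) true, Ev fun c => CoB c (yc x ℓ S) (32 * ℓ₁),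
        Ev fun c => SxB c x (256 * ℓ₁) (32 * ℓ), Ev fun c => SxB c (yc x ℓ S) (256 * ℓ₁) (32 * ℓ),
        Ev fun c => SxB c x (32 * (S ^ 3 * ℓ)) (32 * ℓ₃), Ev fun c => Mk4 c x (256 * ℓ₃) n₀ true]
      ![box x (32 * ℓ₁) \ opp 4 (zpt x (32 * ℓ₁)) (4 * ℓ₁) true,
        box (yc x ℓ S) (32 * ℓ₁) \ opp 4 (zpt (yc x ℓ S) (32 * ℓ₁)) (4 * ℓ₁) true,
        RgC x (256 * ℓ₁) (32 * ℓ) true, RgC (yc x ℓ S) (256 * ℓ₁) (32 * ℓ) true,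
        RgC x (32 * (S ^ 3 * ℓ)) (32 * ℓ₃) true,
        {v | 256 * ℓ₃ ≤ sd x v} \ opp 4 (zpt x (256 * ℓ₃)) (32 * ℓ₃) true]
      (regL (Lwht x ℓ₁ ℓ S ℓ₃)) ?_ ?_ ?_
    · exact ⟨_, this.1, this.2.1, this.2.2⟩
    · intro i
      fin_cases i
      · exact (g1 true).1
      · exact hC1
      · exact SxB_loc _ _ _
      · exact SxB_loc _ _ _
      · exact SxB_loc _ _ _
      · exact (g6 true).1
    · intro i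
      fin_cases i
      · exact (g1 true).2
      · exact (h201 (yc x ℓ S) (32 * ℓ₁)).2
      · exact SxB_mon _ _ _
      · exact SxB_mon _ _ _
      · exact SxB_mon _ _ _
      · exact (g6 true).2
    · intro i
      fin_cases i
      · exact b1
      · exact b2
      · exact b3
      · exact b4
      · exact b5
      · exact b6
  · obtain ⟨b1, b2, b6⟩ := h18 x m₀ n₀ ℓ₁ ℓ S ℓ₃ false hP
    obtain ⟨b3, b4, b5⟩ := h19 x m₀ n₀ ℓ₁ ℓ S ℓ₃ false hP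
    have hC1 := (h202 (yc x ℓ S) (32 * ℓ₁)).1
    rw [e8] at hC1
    have := PP34_six false
      ![Ev fun c => Mk4 c x m₀ (32 * ℓ₁) false, Ev fun c => CoW c (yc x ℓ S) (32 * ℓ₁),
        Ev fun c => SxW c x (256 * ℓ₁) (32 * ℓ), Ev fun c => SxW c (yc x ℓ S) (256 * ℓ₁) (32 * ℓ),
        Ev fun c => SxW c x (32 * (S ^ 3 * ℓ)) (32 * ℓ₃), Ev fun c => Mk4 c x (256 * ℓ₃) n₀ false]
      ![box x (32 * ℓ₁) \ opp 4 (zpt x (32 * ℓ₁)) (4 * ℓ₁) false,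
        box (yc x ℓ S) (32 * ℓ₁) \ opp 4 (zpt (yc x ℓ S) (32 * ℓ₁)) (4 * ℓ₁) false,
        RgC x (256 * ℓ₁) (32 * ℓ) false, RgC (yc x ℓ S) (256 * ℓ₁) (32 * ℓ) false,
        RgC x (32 * (S ^ 3 * ℓ)) (32 * ℓ₃) false,
        {v | 256 * ℓ₃ ≤ sd x v} \ opp 4 (zpt x (256 * ℓ₃)) (32 * ℓ₃) false]
      (regL (Lblk x ℓ₁ ℓ S ℓ₃)) ?_ ?_ ?_
    · exact ⟨_, this.1, this.2.1, this.2.2⟩
    · intro i
      fin_cases i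
      · exact (g1 false).1
      · exact hC1
      · exact SxW_loc _ _ _
      · exact SxW_loc _ _ _
      · exact SxW_loc _ _ _
      · exact (g6 false).1
    · intro i
      fin_cases i
      · exact (g1 false).2
      · exact (h202 (yc x ℓ S) (32 * ℓ₁)).2
      · exact SxW_mon _ _ _
      · exact SxW_mon _ _ _
      · exact SxW_mon _ _ _
      · exact (g6 false).2
    · intro i
      fin_cases i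
      · exact b1
      · exact b2
      · exact b3
      · exact b4
      · exact b5
      · exact b6

theorem PP34_le_one (F : Set (V → Bool)) : Pr F ≤ 1 := by
  have : IsProbabilityMeasure P1 := by unfold P1; infer_instance
  exact measureReal_le_one

/-- `PP34` with a threshold `k₁` which does not depend on `S`. -/
theorem PP34_unif (hGXL : GXL_stmt) (hC1 : C1_stmt) (h11 : PP11_stmt) (h12 : PP12_stmt)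
    (h13 : PP13_stmt) (h16 : PP16_stmt) (h17 : PP17_stmt) (h18 : PP18_stmt) (h19 : PP19_stmt)
    (h20 : PP20_stmt) :
    ∃ k₁ : ℕ, ∀ S : ℕ, 16 ≤ S → ∃ c : ℝ, 0 < c ∧ ∀ (x : V) (m₀ n₂ ℓ₁ ℓ ℓ₃ : ℕ), k₁ ≤ ℓ₁ →
      ParC m₀ (2 * n₂) ℓ₁ ℓ S ℓ₃ →
      c * Pr (Ev fun c => (Gate c x (2 * m₀) (16 * ℓ₁) ∧ Gate c x (512 * ℓ₃) n₂) ∧
          ArB c x m₀ (2 * n₂) ℓ₁ ℓ S ℓ₃ ∧ ArW c x m₀ (2 * n₂) ℓ₁ ℓ S ℓ₃) ≤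
        Pr (Ev fun c => (Gate c x (2 * m₀) (16 * ℓ₁) ∧ Gate c x (512 * ℓ₃) n₂) ∧
          (ArB c x m₀ (2 * n₂) ℓ₁ ℓ S ℓ₃ ∧ ArW c x m₀ (2 * n₂) ℓ₁ ℓ S ℓ₃) ∧
            Lps c true (Lblk x ℓ₁ ℓ S ℓ₃) ∧ Lps c false (Lwht x ℓ₁ ℓ S ℓ₃)) := by
  obtain ⟨c₀, hc₀, ℓ₀, hℓ₀, hloop⟩ := hC1
  refine ⟨ℓ₀, fun S hS => ?_⟩
  obtain ⟨-, hsz, hlen⟩ := h13
  obtain ⟨M, hM⟩ := hlen S
  have hc₁ : c₀ ≤ 1 := (hloop true (0, 0) ℓ₀ le_rfl).trans (PP34_le_one _)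
  refine ⟨c₀ ^ M * c₀ ^ M, by positivity, ?_⟩
  intro x m₀ n₂ ℓ₁ ℓ ℓ₃ hk hP
  obtain ⟨p1, p2, p3, p4, p5, p6⟩ := id hP
  have hℓ₁ : 1 ≤ ℓ₁ := by omega
  have hS3 : 1 ≤ S ^ 3 := Nat.one_le_pow _ _ (by omega)
  have hℓℓ₃ : ℓ ≤ ℓ₃ := by
    have : ℓ ≤ S ^ 3 * ℓ := Nat.le_mul_of_pos_left ℓ (by omega)
    omega
  obtain ⟨hszB, hszW⟩ := hsz x ℓ₁ ℓ S ℓ₃ (by omega) hℓℓ₃ (by omega)
  obtain ⟨hlB, hlW⟩ := hM x ℓ₁ ℓ ℓ₃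
  obtain ⟨hUp, hUpL, hUpM⟩ := h11 c₀ true (Lblk x ℓ₁ ℓ S ℓ₃) hc₀.le
    (fun q hq => hloop true q.1 q.2 (hk.trans (hszB q hq)))
  obtain ⟨hUm, hUmL, hUmM⟩ := h11 c₀ false (Lwht x ℓ₁ ℓ S ℓ₃) hc₀.le
    (fun q hq => hloop false q.1 q.2 (hk.trans (hszW q hq)))
  obtain ⟨⟨Ap, hAp, hMp, hBp⟩, Am, hAm, hMm, hBm⟩ :=
    PP34_arms hGXL h20 h18 h19 x m₀ (2 * n₂) ℓ₁ ℓ S ℓ₃ hP
  -- the gates
  have hX : Loc ((Ev fun c => Gate c x (2 * m₀) (16 * ℓ₁)) ∩ Ev fun c => Gate c x (512 * ℓ₃) n₂)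
      (ann x (2 * m₀) (16 * ℓ₁) ∪ ann x (512 * ℓ₃) n₂) := (PP34_loc _ _ _).inter (PP34_loc _ _ _)
  have hfar : ∀ k : Bool, BDis (ann x (2 * m₀) (16 * ℓ₁) ∪ ann x (512 * ℓ₃) n₂)
      (regL (Lcol k x ℓ₁ ℓ S ℓ₃)) := by
    intro k
    have h := (h17 x m₀ (2 * n₂) ℓ₁ ℓ S ℓ₃ k hP).1
    refine BDis.of_sd ?_
    intro v hv w hw
    obtain ⟨hw1, hw2⟩ := h hw
    have t1 : sd x w ≤ sd x v + sd v w := DP.sd_triangle x v w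
    have t2 : sd x v ≤ sd x w + sd w v := DP.sd_triangle x w v
    have t3 : sd w v = sd v w := DP.sd_comm w v
    rcases hv with ⟨hv1, hv2⟩ | ⟨hv1, hv2⟩
    · omega
    · omega
  have key := h12 _ _ _ _ _ _ Ap Am (regL (Lblk x ℓ₁ ℓ S ℓ₃)) (regL (Lwht x ℓ₁ ℓ S ℓ₃)) hX hAp hAm
    hUpL hUmL hMp hMm hUpM hUmM (h16 x m₀ (2 * n₂) ℓ₁ ℓ S ℓ₃ hP) (hfar true) (hfar false) hBp hBm
  have e1 : c₀ ^ M * c₀ ^ M ≤ Pr (Ev fun c => Lps c true (Lblk x ℓ₁ ℓ S ℓ₃)) *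
      Pr (Ev fun c => Lps c false (Lwht x ℓ₁ ℓ S ℓ₃)) := by
    refine mul_le_mul ?_ ?_ (by positivity) measureReal_nonneg
    · exact (pow_le_pow_of_le_one hc₀.le hc₁ hlB).trans hUp
    · exact (pow_le_pow_of_le_one hc₀.le hc₁ hlW).trans hUm
  have e2 : (Ev fun c => (Gate c x (2 * m₀) (16 * ℓ₁) ∧ Gate c x (512 * ℓ₃) n₂) ∧
      ArB c x m₀ (2 * n₂) ℓ₁ ℓ S ℓ₃ ∧ ArW c x m₀ (2 * n₂) ℓ₁ ℓ S ℓ₃) =
      ((Ev fun c => Gate c x (2 * m₀) (16 * ℓ₁)) ∩ Ev fun c => Gate c x (512 * ℓ₃) n₂) ∩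
        ((Ev fun c => ArB c x m₀ (2 * n₂) ℓ₁ ℓ S ℓ₃) ∩
          Ev fun c => ArW c x m₀ (2 * n₂) ℓ₁ ℓ S ℓ₃) := rfl
  have e3 : (Ev fun c => (Gate c x (2 * m₀) (16 * ℓ₁) ∧ Gate c x (512 * ℓ₃) n₂) ∧
      (ArB c x m₀ (2 * n₂) ℓ₁ ℓ S ℓ₃ ∧ ArW c x m₀ (2 * n₂) ℓ₁ ℓ S ℓ₃) ∧
        Lps c true (Lblk x ℓ₁ ℓ S ℓ₃) ∧ Lps c false (Lwht x ℓ₁ ℓ S ℓ₃)) =
      ((Ev fun c => Gate c x (2 * m₀) (16 * ℓ₁)) ∩ Ev fun c => Gate c x (512 * ℓ₃) n₂) ∩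
        (((Ev fun c => ArB c x m₀ (2 * n₂) ℓ₁ ℓ S ℓ₃) ∩
          Ev fun c => ArW c x m₀ (2 * n₂) ℓ₁ ℓ S ℓ₃) ∩
          ((Ev fun c => Lps c true (Lblk x ℓ₁ ℓ S ℓ₃)) ∩
            Ev fun c => Lps c false (Lwht x ℓ₁ ℓ S ℓ₃))) := rfl
  rw [e2, e3]
  refine le_trans ?_ key
  rw [mul_comm]
  exact mul_le_mul_of_nonneg_left e1 measureReal_nonneg

theorem PP34 (hGXL : GXL_stmt) (hC1 : C1_stmt) (h11 : PP11_stmt) (h12 : PP12_stmt)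
    (h13 : PP13_stmt) (h16 : PP16_stmt) (h17 : PP17_stmt) (h18 : PP18_stmt) (h19 : PP19_stmt)
    (h20 : PP20_stmt) : PP34_stmt := by
  intro S hS
  obtain ⟨k₁, h⟩ := PP34_unif hGXL hC1 h11 h12 h13 h16 h17 h18 h19 h20
  obtain ⟨c, hc, h'⟩ := h S hS
  exact ⟨c, k₁, hc, h'⟩

end TP
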