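import Pool.Agent.helper33.SP.SpecC1S
import Pool.Agent.helper64.TP.Conv

/-! # Project sp, module UJ20: the spectral side of case (i) -/

namespace TP

open DP MeasureTheory

theorem UJ20_prob : IsProbabilityMeasure P1 := by unfold P1; infer_instance

theorem UJ20_op (Φ : ℝ → ℝ → ℝ) {g h : (V → Bool) → ℝ} (hg : FinR g) (hh : FinR h) :
    FinR (fun b => Φ (g b) (h b)) := by
  classical
  obtain ⟨Λ, h1⟩ := hg
  obtain ⟨M, h2⟩ := hh
  refine ⟨Λ ∪ M, fun b b' hb => ?_⟩
  have e1 : g b = g b' := h1 b b' fun v hv => hb v (by push_cast; exact Or.inl hv)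
  have e2 : h b = h b' := h2 b b' fun v hv => hb v (by push_cast; exact Or.inr hv)
  show Φ (g b) (h b) = Φ (g b') (h b')
  rw [e1, e2]

theorem UJ20_const (r : ℝ) : FinR (fun _ => r) := ⟨∅, fun _ _ _ => rfl⟩

theorem UJ20_finprod (J : ℕ) (w : ℕ → (V → Bool) → ℝ) (h : ∀ j < J, FinR (w j)) :
    FinR (fun b => ∏ j ∈ Finset.range J, w j b) := by
  induction J with
  | zero =>
    have : (fun b : V → Bool => ∏ j ∈ Finset.range 0, w j b) = fun _ => 1 := by
      funext b
      simp
    rw [this]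
    exact UJ20_const 1
  | succ J ih =>
    have : (fun b : V → Bool => ∏ j ∈ Finset.range (J + 1), w j b) =
        fun b => (∏ j ∈ Finset.range J, w j b) * w J b := by
      funext b
      rw [Finset.prod_range_succ]
    rw [this]
    exact UJ20_op (fun a b => a * b) (ih fun j hj => h j (by omega)) (h J (by omega))

theorem UJ20_ind {F : Set (V → Bool)} {A : Set V} (h : Loc F A) (r : ℝ) :
    FinR (F.indicator fun _ => r) := by
  obtain ⟨Λ, _, h2⟩ := h
  refine ⟨brs Λ, fun b b' hb => ?_⟩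
  have := h2.coin' b b' hb
  by_cases hF : b ∈ F
  · rw [Set.indicator_of_mem hF, Set.indicator_of_mem (this.mp hF)]
  · rw [Set.indicator_of_notMem hF, Set.indicator_of_notMem fun h => hF (this.mpr h)]

theorem UJ20_av_empty (g : (V → Bool) → ℝ) (b : V → Bool) : av ∅ g b = g b := by
  have := UJ20_prob
  unfold av
  have h1 : ∀ b' : V → Bool, mx ∅ b b' = b := by
    intro b'
    funext v
    simp [mx]
  simp only [h1]
  simp

theorem UJ20 (hUJ3 : UJ3_stmt) (hUJ4 : UJ4_stmt) (hUJ5 : UJ5_stmt) (hUJ7 : UJ7_stmt)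
    (hUJ8 : UJ8_stmt) (hUJ13 : UJ13_stmt) (hUJ14 : UJ14_stmt) (hUJ15 : UJ15_stmt)
    (hUJ19 : UJ19_stmt) (hUI8 : UI8_stmt) (hLQ : K.LQ_stmt) : UJ20_stmt := by
  have hprob := UJ20_prob
  obtain ⟨c₁, c', g₀, k₁, hc₁, hc₁', hc', hg₀, hk₁, h19⟩ := hUJ19
  obtain ⟨C₂, k₂, hC₂, _, _, hshift, _, _⟩ := hUI8
  refine ⟨4 * C₂, c', k₁ + k₂ + 3, by positivity, hc', ?_⟩
  intro i k t m J p x ht hm hp0 hp hpJ hx hB
  set N := i - k with hN
  have hpN : p J ≤ N := by omega
  have hmono : Monotone p := monotone_nat_of_le_succ fun j => by have := hp j; omega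
  have hgap : ∀ a b, a < b → p a + m + (k₁ + k₂ + 3) ≤ p b := fun a b h =>
    le_trans (hp a) (hmono h)
  have hlow : ∀ j, t + (k₁ + k₂ + 3) ≤ p j := fun j => le_trans hp0 (hmono (Nat.zero_le j))
  set D : Set V := {v | sd x v ≤ 2 ^ t} with hD
  set U : ℕ → Set V := fun j => if j < J then Ag x (p j) m else D with hU
  have hUJ' : U J = D := by
    rw [hU]
    simp
  have hUj : ∀ j, j < J → U j = Ag x (p j) m := by
    intro j hj
    rw [hU]
    simp [hj]
  set f : (V → Bool) → ℝ := pmf (Fc i) with hf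
  have hdep := (hUJ4 i).1
  have hpm : ∀ b b' : V → Bool, (∀ v ∈ VV i, b v = b' v) → f b = f b' := by
    intro b b' hb
    have h1 := hdep b b' hb
    rw [hf]
    unfold pmf
    by_cases hF : b ∈ Fc i
    · rw [Set.indicator_of_mem hF, Set.indicator_of_mem (h1.mp hF)]
      rfl
    · rw [Set.indicator_of_notMem hF, Set.indicator_of_notMem fun h => hF (h1.mpr h)]
  have hfin : FinR f := ⟨VV i, fun b b' hb => hpm b b' hb⟩
  -- the spectral identity
  have hPS : PS i (fun X => (∃ v ∈ X, sd x v ≤ 2 ^ t) ∧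
      ∀ j < J, ∃ v ∈ X, 2 ^ p j < sd x v ∧ sd x v < 2 ^ (p j + m)) =
      ∫ b, (dls U J (dl D f) b) ^ 2 ∂P1 := by
    have h3 := hUJ3 (Fc i) (VV i) ∅ U (J + 1) hdep
    have e1 : (fun X : Set V => (∀ v ∈ X, v ∉ (∅ : Set V)) ∧ ∀ l < J + 1, ∃ v ∈ X, v ∈ U l) =
        (fun X => (∃ v ∈ X, sd x v ≤ 2 ^ t) ∧
          ∀ j < J, ∃ v ∈ X, 2 ^ p j < sd x v ∧ sd x v < 2 ^ (p j + m)) := by
      funext X
      apply propext
      constructor
      · rintro ⟨_, h⟩
        refine ⟨?_, ?_⟩
        · obtain ⟨v, hv, hvU⟩ := h J (Nat.lt_succ_self J)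
          rw [hUJ'] at hvU
          exact ⟨v, hv, hvU⟩
        · intro j hj
          obtain ⟨v, hv, hvU⟩ := h j (by omega)
          rw [hUj j hj] at hvU
          exact ⟨v, hv, hvU⟩
      · rintro ⟨⟨v, hv, hv1⟩, h⟩
        refine ⟨fun v _ => Set.notMem_empty v, ?_⟩
        intro l hl
        rcases Nat.lt_or_ge l J with hlJ | hlJ
        · obtain ⟨w, hw, hw1⟩ := h l hlJ
          exact ⟨w, hw, by rw [hUj l hlJ]; exact hw1⟩
        · have : l = J := by omega
          subst this
          exact ⟨v, hv, by rw [hUJ']; exact hv1⟩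
    rw [e1] at h3
    unfold PS
    rw [h3]
    congr 1
    funext b
    rw [UJ20_av_empty]
    show (dls U J (dl (U J) (pmf (Fc i))) b) ^ 2 = _
    rw [hUJ']
  rw [hPS]
  have hthe : ∀ j, 0 ≤ c₁ * a4 (p j) (p j + m) ∧ c₁ * a4 (p j) (p j + m) ≤ 1 := by
    intro j
    have h0 : 0 ≤ a4 (p j) (p j + m) := measureReal_nonneg
    have h1 : a4 (p j) (p j + m) ≤ 1 := measureReal_le_one
    refine ⟨mul_nonneg hc₁.le h0, ?_⟩
    nlinarith
  set w : ℕ → (V → Bool) → ℝ := fun j => wgt (c₁ * a4 (p j) (p j + m)) x (p j) m g₀ with hw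
  set d : ℕ → Set (V → Bool) := fun j => thr x (p j) m g₀ with hd
  have hw01 : ∀ j b, 0 ≤ w j b ∧ w j b ≤ 1 := by
    intro j b
    show 0 ≤ (gdE _ x (p j) m g₀).indicator _ b ∧ (gdE _ x (p j) m g₀).indicator _ b ≤ 1
    by_cases h : b ∈ gdE (c₁ * a4 (p j) (p j + m)) x (p j) m g₀
    · rw [Set.indicator_of_mem h]
      exact hthe j
    · rw [Set.indicator_of_notMem h]
      exact ⟨le_rfl, zero_le_one⟩
  have hweq : ∀ j (b b' : V → Bool), (b ∈ gdE (c₁ * a4 (p j) (p j + m)) x (p j) m g₀ ↔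
      b' ∈ gdE (c₁ * a4 (p j) (p j + m)) x (p j) m g₀) → w j b = w j b' := by
    intro j b b' h
    show (gdE _ x (p j) m g₀).indicator _ b = (gdE _ x (p j) m g₀).indicator _ b'
    by_cases h1 : b ∈ gdE (c₁ * a4 (p j) (p j + m)) x (p j) m g₀
    · rw [Set.indicator_of_mem h1, Set.indicator_of_mem (h.mp h1)]
    · rw [Set.indicator_of_notMem h1, Set.indicator_of_notMem fun h2 => h1 (h.mpr h2)]
  have hwfin : ∀ j, FinR (w j) := fun j =>
    UJ20_ind (hUJ13 (c₁ * a4 (p j) (p j + m)) x (p j) m g₀ (by have := hlow j; omega)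
      (by omega)).1 _
  have hfar : ∀ j a, j < J → a < J → a ≠ j → ∀ b b' : V → Bool, (∀ v, v ∉ U a → b v = b' v) →
      ∀ v, (2 ^ (p j - g₀ - 2) < sd x v ∧ sd x v < 2 ^ (p j + m + g₀ + 2)) → b v = b' v := by
    intro j a hj ha hne b b' hb v hv
    apply hb
    rw [hUj a ha]
    rintro ⟨h1, h2⟩
    rcases Nat.lt_or_ge a j with h | h
    · have h3 := hgap a j h
      have h4 : 2 ^ (p a + m) ≤ 2 ^ (p j - g₀ - 2) := Nat.pow_le_pow_right (by norm_num) (by omega)
      omega
    · have h3 := hgap j a (by omega)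
      have h4 : 2 ^ (p j + m + g₀ + 2) ≤ 2 ^ (p a) := Nat.pow_le_pow_right (by norm_num) (by omega)
      omega
  have hthrw : ∀ j b, 0 < w j b → b ∈ gdE (c₁ * a4 (p j) (p j + m)) x (p j) m g₀ := by
    intro j b h
    by_contra hn
    have : w j b = 0 := by
      show (gdE _ x (p j) m g₀).indicator _ b = 0
      rw [Set.indicator_of_notMem hn]
    rw [this] at h
    exact lt_irrefl _ h
  have hjN : ∀ j, j < J → p j + m + g₀ + 1 ≤ N := by
    intro j hj
    have := hgap j J hj
    omega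
  have h14 : ∀ (b'' : V → Bool) j, j < J → _ := fun b'' j hj =>
    hUJ14 i t (p j) m g₀ N x b'' (by have := hlow j; omega) hg₀ (by omega) (hjN j hj) hB
  have hS0 : 0 ≤ Real.exp (-(c' * ∑ j ∈ Finset.range J, a4 (p j) (p j + m))) :=
    (Real.exp_pos _).le
  have hmain : ∀ b'' : V → Bool, ∫ b, (dls U J (fun b => f b - f (mx D b b'')) b) ^ 2 ∂P1 ≤
      4 * C₂ * Real.exp (-(c' * ∑ j ∈ Finset.range J, a4 (p j) (p j + m))) * a4 t N := by
    intro b''
    have hgfin : FinR (fun b => f b - f (mx D b b'')) := by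
      refine ⟨VV i, fun b b' hb => ?_⟩
      have e1 : f b = f b' := hpm b b' hb
      have e2 : f (mx D b b'') = f (mx D b' b'') := by
        apply hpm
        intro v hv
        unfold mx
        split_ifs
        · rfl
        · exact hb v hv
      show f b - f (mx D b b'') = f b' - f (mx D b' b'')
      rw [e1, e2]
    have h7 := hUJ7 J U (fun b => f b - f (mx D b b'')) w d hgfin (fun j _ => hwfin j)
      (fun j hj => by
        obtain ⟨Λ, _, h2⟩ := (hUJ13 0 x (p j) m g₀ (by have := hlow j; omega) (by omega)).2.1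
        exact ⟨brs Λ, h2.coin'⟩)
      (fun j _ b => hw01 j b)
      (fun j hj a ha b b' hb => by
        apply hweq
        rcases eq_or_ne a j with h | h
        · subst h
          rw [hUj a ha] at hb
          exact (hUJ13 _ x (p a) m g₀ (by have := hlow a; omega) (by omega)).2.2.1 b b' hb
        · exact ((hUJ13 _ x (p j) m g₀ (by have := hlow j; omega) (by omega)).2.2.2 b b'
            (hfar j a hj ha h b b' hb)).1)
      (fun j hj a ha hne b b' hb =>
        ((hUJ13 0 x (p j) m g₀ (by have := hlow j; omega) (by omega)).2.2.2 b b'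
            (hfar j a hj ha hne b b' hb)).2)
      (fun j hj b _ hbd => (h14 b'' j hj).1 b hbd)
      (fun j hj b b' hb hwj hbd hbd' => by
        rw [hUj j hj] at hb
        exact (h14 b'' j hj).2 b b' hb (hthrw j b hwj).1 hbd hbd')
      (fun j hj b => by
        by_cases h : b ∈ gdE (c₁ * a4 (p j) (p j + m)) x (p j) m g₀
        · have e : w j b = c₁ * a4 (p j) (p j + m) := by
            show (gdE _ x (p j) m g₀).indicator _ b = _
            rw [Set.indicator_of_mem h]
          rw [e, hUj j hj]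
          exact h.2
        · have e : w j b = 0 := by
            show (gdE _ x (p j) m g₀).indicator _ b = 0
            rw [Set.indicator_of_notMem h]
          rw [e]
          exact measureReal_nonneg)
    have hPfin : FinR (fun b => ∏ j ∈ Finset.range J, (1 - w j b)) :=
      UJ20_finprod J (fun j b => 1 - w j b) fun j _ =>
        UJ20_op (fun a b => a - b) (UJ20_const 1) (hwfin j)
    have hP0 : ∀ b, 0 ≤ ∏ j ∈ Finset.range J, (1 - w j b) := fun b =>
      Finset.prod_nonneg fun j _ => by linarith [(hw01 j b).2]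
    have hIfin : FinR (fun b => (F4 x (t + 1) N).indicator (1 : (V → Bool) → ℝ) b *
        ∏ j ∈ Finset.range J, (1 - w j b)) :=
      UJ20_op (fun a b => a * b) (UJ20_ind (hLQ.1 x (t + 1) N) 1) hPfin
    have hint : Integrable (fun b => (F4 x (t + 1) N).indicator (1 : (V → Bool) → ℝ) b *
        ∏ j ∈ Finset.range J, (1 - w j b)) P1 := (hUJ5.1 ∅ _ hIfin).2.2.1
    have h15 := fun b => hUJ15 i t N x b b'' (by omega) (by have := hlow J; omega) hB
    have hstep : ∫ b, (f b - f (mx D b b'')) ^ 2 * ∏ j ∈ Finset.range J, (1 - w j b) ∂P1 ≤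
        ∫ b, 4 * ((F4 x (t + 1) N).indicator (1 : (V → Bool) → ℝ) b *
          ∏ j ∈ Finset.range J, (1 - w j b)) ∂P1 := by
      apply integral_mono_of_nonneg
      · exact Filter.Eventually.of_forall fun b => mul_nonneg (sq_nonneg _) (hP0 b)
      · exact hint.const_mul 4
      · refine Filter.Eventually.of_forall fun b => ?_
        show (f b - f (mx D b b'')) ^ 2 * ∏ j ∈ Finset.range J, (1 - w j b) ≤
          4 * ((F4 x (t + 1) N).indicator (1 : (V → Bool) → ℝ) b *
          ∏ j ∈ Finset.range J, (1 - w j b))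
        rw [← mul_assoc]
        exact mul_le_mul_of_nonneg_right (h15 b) (hP0 b)
    rw [integral_const_mul] at hstep
    have h19' := h19 (t + 1) m J N p x (by omega) (by omega) (by have := hlow 0; omega)
      (fun j => by have := hp j; omega) hpN hx
    have hsh := hshift t (N - 1) 1 (by omega) (by have := hlow J; omega)
    have hN1 : N - 1 + 1 = N := by have := hlow J; omega
    rw [hN1, pow_one] at hsh
    calc ∫ b, (dls U J (fun b => f b - f (mx D b b'')) b) ^ 2 ∂P1
        ≤ ∫ b, (f b - f (mx D b b'')) ^ 2 * ∏ j ∈ Finset.range J, (1 - w j b) ∂P1 := h7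
      _ ≤ 4 * ∫ b, (F4 x (t + 1) N).indicator (1 : (V → Bool) → ℝ) b *
          ∏ j ∈ Finset.range J, (1 - w j b) ∂P1 := hstep
      _ ≤ 4 * (Real.exp (-(c' * ∑ j ∈ Finset.range J, a4 (p j) (p j + m))) * a4 (t + 1) N) :=
          mul_le_mul_of_nonneg_left h19' (by norm_num)
      _ ≤ 4 * (Real.exp (-(c' * ∑ j ∈ Finset.range J, a4 (p j) (p j + m))) * (C₂ * a4 t N)) :=
          mul_le_mul_of_nonneg_left (mul_le_mul_of_nonneg_left hsh hS0) (by norm_num)
      _ = _ := by ring
  exact hUJ8 J U D f _ hfin hmain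

end TP
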