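import Pool.Agent.helper33.SP.SpecC2S

/-! # Project sp, module VA22: the weak pair pattern is rare for the spectral sample -/

namespace TP

open DP MeasureTheory

theorem VA22_prob : IsProbabilityMeasure P1 := by unfold P1; infer_instance

theorem VA22_wpar (z : V) (p h g : ℕ) (b : V → Bool) :
    0 ≤ wpar z p h g b ∧ wpar z p h g b ≤ 1 / 2 := by
  have := VA22_prob
  unfold wpar
  have h0 : 0 ≤ cpr (Ag z p h) (thr z p h g) (flp (fI z p) b) := measureReal_nonneg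
  have h1 : cpr (Ag z p h) (thr z p h g) (flp (fI z p) b) ≤ 1 := measureReal_le_one
  by_cases hb : b ∈ gts z p h g ∩ thr z p h g
  · rw [Set.indicator_of_mem hb]
    simp only [Pi.one_apply, mul_one]
    constructor
    · positivity
    · linarith
  · rw [Set.indicator_of_notMem hb]
    simp

theorem VA22_exp (c : ℝ) (g m : ℕ) (hc : 0 < c) (hm : 13 ≤ m) :
    Real.exp (-(c * ((m - 13) / (2 * g + 24) : ℕ))) ^ 2 ≤
      Real.exp (2 * c * (2 * g + 37) / (2 * g + 24)) *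
        Real.exp (-(2 * c / (2 * g + 24) * m)) := by
  rw [← Real.exp_nat_mul, ← Real.exp_add, Real.exp_le_exp]
  set J : ℕ := (m - 13) / (2 * g + 24) with hJ
  have h1 : m - 13 < (J + 1) * (2 * g + 24) := by
    rw [hJ, mul_comm]
    exact Nat.lt_mul_div_succ (m - 13) (by omega)
  have h2 : (m : ℝ) ≤ (J + 1) * (2 * g + 24) + 13 := by
    have : m ≤ (J + 1) * (2 * g + 24) + 13 := by omega
    exact_mod_cast this
  have hpos : (0 : ℝ) < 2 * g + 24 := by positivity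
  have h3 : 2 * c * (2 * g + 37) / (2 * g + 24) + -(2 * c / (2 * g + 24) * m) =
      2 * c * ((2 * g + 37) - m) / (2 * g + 24) := by
    field_simp
    ring
  rw [h3, le_div_iff₀ hpos]
  push_cast
  nlinarith

theorem VA22 (hUJ3 : UJ3_stmt) (hUJ4 : UJ4_stmt) (h8 : VA8_stmt) (h13 : VA13_stmt)
    (h14 : VA14_stmt) (h20 : VA20_stmt) (h21 : VA21_stmt) : VA22_stmt := by
  have hprob := VA22_prob
  obtain ⟨c₁, g, k₁, hc₁, hg, h20⟩ := h20
  obtain ⟨k₂, h21⟩ := h21
  refine ⟨2 * c₁ / (2 * g + 24), k₁ + k₂ + 40, by positivity, ?_⟩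
  intro s hs
  obtain ⟨C₂, hC₂, h21⟩ := h21 s
  refine ⟨144 * Real.exp (2 * c₁ * (2 * g + 37) / (2 * g + 24)) * C₂, by positivity, ?_⟩
  intro i k t p m h x ht hp hm hi hx hB
  set N := i - k with hN
  set y := yy h x (2 ^ (p + m + s)) with hy
  set J : ℕ := (m - 13) / (2 * g + 24) with hJ
  have hJm : J * (2 * g + 24) ≤ m - 13 := Nat.div_mul_le_self _ _
  have hGeo : Geo i N t p m s g 14 J x y := by
    refine ⟨hx, ?_, by omega, hg, by norm_num, ⟨by omega, by omega⟩, ?_, by omega, hB⟩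
    · rw [hy]
      unfold yy
      by_cases hh' : h = true
      · left
        rw [if_pos hh']
        push_cast
        rfl
      · right
        rw [if_neg hh']
        push_cast
        rfl
    · have : J * (2 * g + 14 + 10) = J * (2 * g + 24) := by ring
      rw [this]
      omega
  have hyev : (y.1 + y.2) % 2 = 0 := by
    obtain ⟨n, hn⟩ : ∃ n, p + m + s = n + 1 := ⟨p + m + s - 1, by omega⟩
    rw [hy, hn]
    unfold yy
    have e : (((2 ^ (n + 1) : ℕ)) : ℤ) = 2 * 2 ^ n := by push_cast; ring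
    rw [e]
    split_ifs
    · show (x.1 + 2 * 2 ^ n + x.2) % 2 = 0
      omega
    · show (x.1 + (x.2 + 2 * 2 ^ n)) % 2 = 0
      omega
  -- the spectral identity
  have hPS : PS i (fun X => (∃ v ∈ X, sd x v ≤ 2 ^ t) ∧ PairW X h x p m s) =
      ∫ b, (av (Wc x y p m s) (dl (U1c x t) (dl (U2c y p) (pmf (Fc i)))) b) ^ 2 ∂P1 := by
    have h3 := hUJ3 (Fc i) (VV i) (Wc x y p m s) (fun l => if l = 0 then U1c x t else U2c y p) 2
      (hUJ4 i).1
    have e1 : (fun X : Set V => (∀ v ∈ X, v ∉ Wc x y p m s) ∧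
        ∀ l < 2, ∃ v ∈ X, v ∈ (if l = 0 then U1c x t else U2c y p)) =
        (fun X => (∃ v ∈ X, sd x v ≤ 2 ^ t) ∧ PairW X h x p m s) := by
      funext X
      apply propext
      constructor
      · rintro ⟨h4, h5⟩
        refine ⟨?_, ?_, h4⟩
        · obtain ⟨v, hv, hvU⟩ := h5 0 (by norm_num)
          exact ⟨v, hv, hvU⟩
        · obtain ⟨v, hv, hvU⟩ := h5 1 (by norm_num)
          exact ⟨v, hv, hvU⟩
      · rintro ⟨⟨v, hv, hv1⟩, ⟨w, hw, hw1⟩, h4⟩
        refine ⟨h4, ?_⟩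
        intro l hl
        rcases Nat.eq_zero_or_pos l with h0 | h0
        · subst h0
          exact ⟨v, hv, by rw [if_pos rfl]; exact hv1⟩
        · exact ⟨w, hw, by rw [if_neg (by omega)]; exact hw1⟩
    rw [e1] at h3
    unfold PS
    rw [h3]
    rfl
  rw [hPS]
  have hwf : ∀ (z : V) (P l : ℕ) (b : V → Bool), 0 ≤ wf z g 14 P l b ∧ wf z g 14 P l b ≤ 1 / 2 :=
    fun z P l b => VA22_wpar z _ 14 g b
  have hQ0 : ∀ b, 0 ≤ Q3 x y g 14 (p + 3) (p + m + 3 * s) J b := fun b =>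
    ((h8 x y g 14 (p + 3) (p + m + 3 * s) J b).2.2 hwf).1
  have hEZ0 : 0 ≤ EZ (Q3 x y g 14 (p + 3) (p + m + 3 * s) J) (EW x y p m s) := by
    unfold EZ
    exact integral_nonneg hQ0
  have ha : ∀ a b, 0 ≤ a4 a b := fun a b => measureReal_nonneg
  have hJ10 : J * (2 * g + 14 + 10) = J * (2 * g + 24) := by ring
  have b1 := h20 x (p + 3) (p + m) J hx (by omega) (by rw [hJ10]; omega)
  have b2 := h20 y (p + 3) (p + m) J hyev (by omega) (by rw [hJ10]; omega)
  have b3 := h20 x (p + m + 3 * s) (p + m + 3 * s + m - 3) J hx (by omega) (by rw [hJ10]; omega)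
  obtain ⟨b4, b5⟩ := h14 i N t p m s g 14 J x y hGeo
  set e : ℝ := Real.exp (-(c₁ * J)) with he
  have he0 : 0 < e := Real.exp_pos _
  set A := a4 (p + 3) (p + m) with hA
  set B := a4 (p + m + 3 * s) (p + m + 3 * s + m - 3) with hBB
  have hEZ : EZ (Q3 x y g 14 (p + 3) (p + m + 3 * s) J) (EW x y p m s) ≤ 3 * e * (A * A * B) := by
    refine le_trans b4 ?_
    have hA0 : 0 ≤ A := ha _ _
    have hB0 : 0 ≤ B := ha _ _
    have t1 : EZ (Nf x g 14 (p + 3) J) (F4 x (p + 3) (p + m)) * A * B ≤ (e * A) * A * B :=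
      mul_le_mul_of_nonneg_right (mul_le_mul_of_nonneg_right b1 hA0) hB0
    have t2 : A * EZ (Nf y g 14 (p + 3) J) (F4 y (p + 3) (p + m)) * B ≤ A * (e * A) * B :=
      mul_le_mul_of_nonneg_right (mul_le_mul_of_nonneg_left b2 hA0) hB0
    have t3 : A * A * EZ (Nf x g 14 (p + m + 3 * s) J)
        (F4 x (p + m + 3 * s) (p + m + 3 * s + m - 3)) ≤ A * A * (e * B) :=
      mul_le_mul_of_nonneg_left b3 (mul_nonneg hA0 hA0)
    nlinarith
  have h13' := h13 i N t p m s g 14 J x y hGeo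
  have h21' := h21 N t p m (by omega) (by omega) (by omega) (by omega)
  have hexp := VA22_exp c₁ g m hc₁ (by omega)
  rw [← hJ, ← he] at hexp
  have hEO0 : 0 ≤ a4 (t + 1) (p + 1) * a4 (p + m + 3 * s + m - 1) N := mul_nonneg (ha _ _) (ha _ _)
  have hABB : 0 ≤ A * A * B := mul_nonneg (mul_nonneg (ha _ _) (ha _ _)) (ha _ _)
  have hR0 : 0 ≤ (a4 p (p + m) ^ 3 * a4 (p + m + 3 * s) (p + m + 3 * s + m)) * a4 t N :=
    mul_nonneg (mul_nonneg (pow_nonneg (ha _ _) 3) (ha _ _)) (ha _ _)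
  have hsq : EZ (Q3 x y g 14 (p + 3) (p + m + 3 * s) J) (EW x y p m s) ^ 2 ≤
      (3 * e * (A * A * B)) ^ 2 := pow_le_pow_left₀ hEZ0 hEZ 2
  calc ∫ b, (av (Wc x y p m s) (dl (U1c x t) (dl (U2c y p) (pmf (Fc i)))) b) ^ 2 ∂P1
      ≤ 16 * EZ (Q3 x y g 14 (p + 3) (p + m + 3 * s) J) (EW x y p m s) ^ 2 *
          Pr (EO x N t p m s) := h13'
    _ ≤ 16 * (3 * e * (A * A * B)) ^ 2 * (a4 (t + 1) (p + 1) * a4 (p + m + 3 * s + m - 1) N) := by
        apply mul_le_mul _ b5 measureReal_nonneg (by positivity)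
        linarith
    _ = 144 * e ^ 2 * ((A * A * B) ^ 2 *
          (a4 (t + 1) (p + 1) * a4 (p + m + 3 * s + m - 1) N)) := by ring
    _ ≤ 144 * e ^ 2 * (C₂ * (a4 p (p + m) ^ 3 * a4 (p + m + 3 * s) (p + m + 3 * s + m)) *
          a4 t N) := mul_le_mul_of_nonneg_left h21' (by positivity)
    _ = (144 * C₂ * ((a4 p (p + m) ^ 3 * a4 (p + m + 3 * s) (p + m + 3 * s + m)) * a4 t N)) *
          e ^ 2 := by ring
    _ ≤ (144 * C₂ * ((a4 p (p + m) ^ 3 * a4 (p + m + 3 * s) (p + m + 3 * s + m)) * a4 t N)) *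
          (Real.exp (2 * c₁ * (2 * g + 37) / (2 * g + 24)) *
            Real.exp (-(2 * c₁ / (2 * g + 24) * m))) :=
        mul_le_mul_of_nonneg_left hexp (by positivity)
    _ = _ := by ring

end TP
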